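import Pool.Agent.N627.ND.Stm

/-!
# ND/M3: the recursion (helper767)
-/

set_option autoImplicit false

namespace Pool.Agent.N767.ND

open Pool.Agent.N627.ND

theorem spP_empty {A B : Type} [IsEmpty A] (s : ℝ) (hs : 0 ≤ s) (X : A → B → Prop) : SpP s X := by
  refine ⟨Empty, inferInstance, fun a => isEmptyElim a, fun l => isEmptyElim l, fun a =>
    isEmptyElim a, fun b => ?_, fun a => isEmptyElim a⟩
  rw [Finset.univ_eq_empty, Finset.sum_empty]
  exact hs

/-- the bound for nonempty sides -/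
theorem spP_of {A B : Type} [Fintype A] [Fintype B] (C ε : ℝ) (hC : 0 ≤ C) (hε : 0 < ε)
    (X : A → B → Prop)
    (h : (1 : ℝ) ≤ (Fintype.card A : ℝ) + (Fintype.card B : ℝ) →
      SpP (C * ((Fintype.card A : ℝ) + (Fintype.card B : ℝ)) ^ ε) X) :
    SpP (C * ((Fintype.card A : ℝ) + (Fintype.card B : ℝ)) ^ ε) X := by
  by_cases hN : (1 : ℝ) ≤ (Fintype.card A : ℝ) + (Fintype.card B : ℝ)
  · exact h hN
  · have h0 : Fintype.card A = 0 := by
      by_contra h1
      have h2 : (1 : ℝ) ≤ Fintype.card A := by exact_mod_cast Nat.one_le_iff_ne_zero.2 h1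
      have h3 : (0 : ℝ) ≤ Fintype.card B := Nat.cast_nonneg _
      exact hN (by linarith)
    have : IsEmpty A := Fintype.card_eq_zero_iff.1 h0
    exact spP_empty _ (by positivity) X

theorem bot_le {V : Type} (u v : V) (e : ℕ) :
    (⊥ : SimpleGraph V).edist u v ≤ (e : ℕ∞) ↔ u = v := by
  constructor
  · intro h
    by_contra hne
    rw [SimpleGraph.edist_bot_of_ne hne] at h
    exact absurd h (by simp)
  · rintro rfl
    simp

theorem m3_zero (hM1 : S_M1) (hSR : S_SR) (μ : ℕ → ℕ) (R s q n : ℕ) : MainB μ R s 0 q n := by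
  intro K _ ε hε
  obtain ⟨M, hM⟩ := hM1 K q n (n + q) (by omega)
  refine ⟨(2 * (1 + 1)) ^ M, ?_⟩
  intro V _ _ G κ _ hG A B _ _ σ x y Θ
  refine spP_of _ ε (by positivity) hε _ fun hN => ?_
  have hGb : G = ⊥ := hG
  subst hGb
  obtain ⟨sr1, sr2, sr3, sr4⟩ := hSR
  refine sr4 A B _ _ _ ?_ (hM V ⊥ κ A B (fun a b => mix σ (x a) (y b)) 1 zero_le_one ?_ ?_ Θ)
  · have h1 : (1 : ℝ) ≤ ((Fintype.card A : ℝ) + (Fintype.card B : ℝ)) ^ ε :=
      Real.one_le_rpow hN hε.le
    exact le_mul_of_one_le_right (by positivity) h1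
  · intro i k
    simp_rw [bot_le]
    by_cases hi : σ i = true <;> by_cases hk : σ k = true <;>
      simp only [mix, hi, hk, if_true, Bool.false_eq_true, if_false]
    · exact sr1 A B fun a => x a i = x a k
    · exact sr3 A B V (fun a => x a i) fun b => y b k
    · have := sr3 A B V (fun a => x a k) fun b => y b i
      simp_rw [eq_comm (a := x _ k)] at this
      exact this
    · exact sr2 A B fun b => y b i = y b k
  · intro I i θ hi
    by_cases hσ : σ i = true
    · refine ⟨fun a _ => T (⊥ : SimpleGraph V) κ (n + q) q n (fun _ => x a i) = θ,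
        sr1 A B _, fun a b h => ?_⟩
      have h2 : (fun k => if k ∈ I then mix σ (x a) (y b) k else mix σ (x a) (y b) i) =
          fun _ : Fin n => x a i := by
        funext k
        have h3 : mix σ (x a) (y b) i = x a i := by simp only [mix, hσ, if_true]
        split_ifs with hk
        · rw [← (bot_le _ _ _).1 (h k hk), h3]
        · exact h3
      rw [h2]
    · refine ⟨fun _ b => T (⊥ : SimpleGraph V) κ (n + q) q n (fun _ => y b i) = θ,
        sr2 A B _, fun a b h => ?_⟩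
      have h2 : (fun k => if k ∈ I then mix σ (x a) (y b) k else mix σ (x a) (y b) i) =
          fun _ : Fin n => y b i := by
        funext k
        have h3 : mix σ (x a) (y b) i = y b i := by
          simp only [mix, hσ, Bool.false_eq_true, if_false]
        split_ifs with hk
        · rw [← (bot_le _ _ _).1 (h k hk), h3]
        · exact h3
      rw [h2]

theorem m3_succ (hM1 : S_M1) (hM2 : S_M2) (hDI : S_DI) (hSR : S_SR) (μ : ℕ → ℕ)
    (R s l q n : ℕ) (hR : 6 ^ (q + 3) * (n + 1) ≤ R) (ih : MainB μ R s l q n) :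
    MainB μ R s (l + 1) q n := by
  intro K _ ε hε
  obtain ⟨M, hM⟩ := hM1 K q n (n + q) (by omega)
  have hM0 : (0 : ℝ) < M + 1 := by positivity
  have hε' : 0 < ε / (M + 1) := div_pos hε hM0
  obtain ⟨C2, hC2⟩ := hM2 μ R s l q n (n + q) (by omega) hR ih K (ε / (M + 1)) hε'
  have hE : 2 * (6 * 6 ^ q) ≤ R := by
    refine le_trans ?_ hR
    have h1 : 6 ^ (q + 3) = 216 * 6 ^ q := by rw [pow_add]; ring
    rw [h1]
    have h2 : 1 ≤ 6 ^ q := Nat.one_le_pow _ _ (by norm_num)
    nlinarith [Nat.zero_le (6 ^ q * n)]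
  obtain ⟨C3, hC3⟩ := hDI μ R s (l + 1) (6 * 6 ^ q) hE (ε / (M + 1)) hε'
  set C0 : ℝ := max (max C2 C3) 1 with hC0
  have h01 : 1 ≤ C0 := le_max_right _ _
  have h02 : C2 ≤ C0 := (le_max_left _ _).trans (le_max_left _ _)
  have h03 : C3 ≤ C0 := (le_max_right _ _).trans (le_max_left _ _)
  refine ⟨(2 * (1 + C0)) ^ M, ?_⟩
  intro V _ _ G κ hμ hG A B _ _ σ x y Θ
  refine spP_of _ ε (by positivity) hε _ fun hN => ?_
  set N : ℝ := (Fintype.card A : ℝ) + (Fintype.card B : ℝ) with hNdef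
  have hN1 : 1 ≤ N ^ (ε / (M + 1)) := Real.one_le_rpow hN hε'.le
  have hs1 : 1 ≤ C0 * N ^ (ε / (M + 1)) := one_le_mul_of_one_le_of_one_le h01 hN1
  have hs2 : C2 * N ^ (ε / (M + 1)) ≤ C0 * N ^ (ε / (M + 1)) :=
    mul_le_mul_of_nonneg_right h02 (by linarith)
  have hs3 : C3 * N ^ (ε / (M + 1)) ≤ C0 * N ^ (ε / (M + 1)) :=
    mul_le_mul_of_nonneg_right h03 (by linarith)
  obtain ⟨sr1, sr2, sr3, sr4⟩ := hSR
  refine sr4 A B _ _ _ ?_ (hM V G κ A B (fun a b => mix σ (x a) (y b)) (C0 * N ^ (ε / (M + 1)))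
    (by linarith) ?_ ?_ Θ)
  · have h1 : (2 * (1 + C0 * N ^ (ε / (M + 1)))) ^ M ≤
        (2 * (1 + C0) * N ^ (ε / (M + 1))) ^ M := by
      apply pow_le_pow_left₀ (by positivity)
      nlinarith
    refine h1.trans ?_
    rw [mul_pow (2 * (1 + C0))]
    apply mul_le_mul_of_nonneg_left _ (by positivity)
    rw [← Real.rpow_natCast, ← Real.rpow_mul (by linarith)]
    apply Real.rpow_le_rpow_of_exponent_le hN
    rw [div_mul_eq_mul_div, div_le_iff₀ hM0]
    nlinarith
  · intro i k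
    by_cases hi : σ i = true <;> by_cases hk : σ k = true <;>
      simp only [mix, hi, hk, if_true, Bool.false_eq_true, if_false]
    · exact sr4 A B _ _ _ hs1 (sr1 A B fun a => G.edist (x a i) (x a k) ≤ ((6 * 6 ^ q : ℕ) : ℕ∞))
    · exact sr4 A B _ _ _ hs3 (hC3 V G hμ hG A B (fun a => x a i) (fun b => y b k)
        (6 * 6 ^ q) le_rfl)
    · have := sr4 A B _ _ _ hs3 (hC3 V G hμ hG A B (fun a => x a k) (fun b => y b i)
        (6 * 6 ^ q) le_rfl)
      simp_rw [SimpleGraph.edist_comm (u := x _ k)] at this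
      exact this
    · exact sr4 A B _ _ _ hs1 (sr2 A B fun b => G.edist (y b i) (y b k) ≤ ((6 * 6 ^ q : ℕ) : ℕ∞))
  · intro I i θ hi
    obtain ⟨Y, hY1, hY2⟩ := hC2 V G κ hμ hG A B σ x y I i θ hi
    exact ⟨Y, sr4 A B _ _ _ hs2 hY1, hY2⟩

/-- ND/M3: the recursion -/
theorem m3 (hM1 : S_M1) (hM2 : S_M2) (hDI : S_DI) (hSR : S_SR) : S_MA := by
  intro μ R s l q n hR
  induction l with
  | zero => exact m3_zero hM1 hSR μ R s q n
  | succ l ih => exact m3_succ hM1 hM2 hDI hSR μ R s l q n hR ih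

end Pool.Agent.N767.ND
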